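import Mathlib

/-!
# The averaged inequality S_INB by generic flags: definitions and statements of the parts (helper90)

Statements are `Prop`s `S_XXX`; a proof of a part is `theorem t_XXX (dependencies) : S_XXX` in its own file
`Pool/Agent/<Helper>/MH/XXX.lean`.
-/

set_option autoImplicit false

noncomputable section

open MeasureTheory Set Filter Topology
open scoped BigOperators Pointwise ENNReal

namespace Pool.Agent.Helper90.MH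

/-! ## Lattice points and sums -/

/-- `n`-fold sums of elements of `S` -/
def ns {k : ℕ} (S : Finset (Fin k → ℤ)) : ℕ → Finset (Fin k → ℤ)
  | 0 => {0}
  | n + 1 => ns S n + S

/-- sums of `p` elements of `A` and `q` elements of `B` -/
def SS {k : ℕ} (A B : Finset (Fin k → ℤ)) (p q : ℕ) : Finset (Fin k → ℤ) := ns A p + ns B q

/-! ## The generic flag -/

/-- the ring of the coefficients: polynomials in `c_(l, α)` over `ℚ` -/
abbrev LL (k : ℕ) : Type := MvPolynomial (Fin k × (Fin k → ℤ)) ℚ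

/-- the field of the coefficients -/
abbrev KK (k : ℕ) : Type := FractionRing (LL k)

/-- Laurent polynomials in `k` variables over `KK k` -/
abbrev OO (k : ℕ) : Type := AddMonoidAlgebra (KK k) (Fin k → ℤ)

/-- the monomial `x ^ z` -/
def mon {k : ℕ} (z : Fin k → ℤ) : OO k := AddMonoidAlgebra.single z 1

/-- the coefficient `c_(l, α)` -/
def cf {k : ℕ} (l : Fin k) (α : Fin k → ℤ) : KK k := algebraMap (LL k) (KK k) (MvPolynomial.X (l, α))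

/-- the generic Laurent polynomial `a_l` with exponents in `A` -/
def ga {k : ℕ} (A : Finset (Fin k → ℤ)) (l : Fin k) : OO k :=
  ∑ α ∈ A, AddMonoidAlgebra.single α (cf l α)

/-- the ideal of `a_l`, `l < j` -/
def II {k : ℕ} (A : Finset (Fin k → ℤ)) (j : ℕ) : Ideal (OO k) :=
  Ideal.span {x | ∃ l : Fin k, l.val < j ∧ x = ga A l}

/-- Laurent polynomials with exponents in `S` -/
def Lsp {k : ℕ} (S : Finset (Fin k → ℤ)) : Submodule (KK k) (OO k) :=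
  Submodule.span (KK k) (mon '' (S : Set (Fin k → ℤ)))

/-- `g` is a sum of `a_l * u_l`, `l < j`, `u_l` with exponents in `SS A B p q` -/
def InJ {k : ℕ} (A B : Finset (Fin k → ℤ)) (j p q : ℕ) (g : OO k) : Prop :=
  ∃ u : Fin k → OO k, (∀ l, u l ∈ Lsp (SS A B p q)) ∧
    g = ∑ l ∈ Finset.univ.filter (fun l : Fin k => l.val < j), ga A l * u l

/-- (SUB1) `x ^ (n m)` maps `I_j` into the sums with the right degrees -/
def S_SUB1 : Prop := ∀ (k : ℕ) (A B : Finset (Fin k → ℤ)) (j : ℕ), ∀ m ∈ A, ∀ (p q : ℕ) (g : OO k),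
  g ∈ Lsp (SS A B p q) → g ∈ II A j → ∃ n : ℕ, InJ A B j (p + n) q (mon ((n + 1 : ℤ) • m) * g)

/-- (SUB2) `I_j` is prime or the whole ring -/
def S_SUB2 : Prop := ∀ (k : ℕ) (A : Finset (Fin k → ℤ)) (j : ℕ), A.Nonempty → ∀ f g : OO k,
  f * g ∈ II A j → f ∈ II A j ∨ g ∈ II A j

/-- (SUB3) `a_l`, `l ≥ j`, is not in `I_j` if this is not the whole ring -/
def S_SUB3 : Prop := ∀ (k : ℕ) (A : Finset (Fin k → ℤ)) (j : ℕ), A.Nonempty → ∀ l : Fin k,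
  j ≤ l.val → ga A l ∈ II A j → II A j = ⊤

/-- (NOE) in large `A`-degree `I_j` is generated by `a_l` with the right degrees -/
def S_NOE : Prop := ∀ (k : ℕ) (A B : Finset (Fin k → ℤ)), A.Nonempty → ∃ N : ℕ, ∀ j ≤ k,
  ∀ p : ℕ, N ≤ p → ∀ (q : ℕ) (g : OO k), g ∈ Lsp (SS A B (p + 1) q) → g ∈ II A j → InJ A B j p q g

/-- dimension of the space of the restrictions to `Y_j` of Laurent polynomials with exponents in `S` -/
def hd {k : ℕ} (A : Finset (Fin k → ℤ)) (j : ℕ) (S : Finset (Fin k → ℤ)) : ℕ :=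
  Module.finrank (KK k) ((Lsp S).map (Ideal.Quotient.mkₐ (KK k) (II A j)).toLinearMap)

/-- (DIM) the recursion for the dimensions -/
def S_DIM : Prop := ∀ (k : ℕ) (A B : Finset (Fin k → ℤ)), (0 : Fin k → ℤ) ∈ A → ∃ N : ℕ,
  (∀ j < k, ∀ p : ℕ, N ≤ p → ∀ q : ℕ,
    hd A (j + 1) (SS A B (p + 1) q) + hd A j (SS A B p q) = hd A j (SS A B (p + 1) q)) ∧
  (∀ j ≤ k, ∀ p q : ℕ, hd A j (SS A B p q) ≤ hd A j (SS A B (p + 1) q)) ∧
  ∀ S : Finset (Fin k → ℤ), hd A 0 S = S.card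

/-- (FIN) the last quotient is not zero and has finite dimension -/
def S_FIN : Prop := ∀ (k : ℕ) (A : Finset (Fin k → ℤ)), (0 : Fin k → ℤ) ∈ A →
  (∀ z, ∃ n, z ∈ ns A n) → II A k ≠ ⊤ ∧ Module.Finite (KK k) (OO k ⧸ II A k) ∧
  ∃ N₀ : ℕ, (Lsp (ns A N₀)).map (Ideal.Quotient.mkₐ (KK k) (II A k)).toLinearMap = ⊤

/-- (VAL) the valuation of a flag of primes, in a general ring -/
def S_VAL : Prop := ∀ (K R : Type) [Field K] [CommRing R] [IsDomain R] [IsNoetherianRing R] [Algebra K R]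
  (k : ℕ) (a : Fin k → R) (I : ℕ → Ideal R),
  (∀ j, I j = Ideal.span {x | ∃ l : Fin k, l.val < j ∧ x = a l}) →
  (∀ j ≤ k, (I j).IsPrime) → (∀ l : Fin k, a l ∉ I l.val) → Module.Finite K (R ⧸ I k) →
  ∃ v : R → (Fin k → ℕ),
    (∀ f g, f ≠ 0 → g ≠ 0 → v (f * g) = v f + v g) ∧
    (∀ l, v (a l) = Pi.single l 1) ∧
    (∀ j ≤ k, ∀ f, f ∉ I j → ∀ l : Fin k, l.val < j → v f l = 0) ∧
    (∀ j ≤ k, ∀ f, f ≠ 0 → (∀ l : Fin k, l.val < j → v f l = 0) → f ∉ I j) ∧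
    (∀ U : Submodule K R, Module.Finite K U → (v '' {f | f ∈ U ∧ f ≠ 0}).Finite) ∧
    (∀ j ≤ k, ∀ U : Submodule K R, Module.Finite K U →
      Module.finrank K (U.map (Ideal.Quotient.mkₐ K (I j)).toLinearMap) ≤
        Module.finrank K (R ⧸ I k) * (v '' {f | f ∈ U ∧ f ∉ I j}).ncard) ∧
    (∀ j ≤ k, ∀ U : Submodule K R, Module.Finite K U →
      (v '' {f | f ∈ U ∧ f ∉ I j}).ncard ≤
        Module.finrank K (U.map (Ideal.Quotient.mkₐ K (I j)).toLinearMap)) ∧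
    (∀ U E : Submodule K R, Module.Finite K U → Module.Finite K E →
      E.map (Ideal.Quotient.mkₐ K (I k)).toLinearMap = ⊤ →
      Module.finrank K (R ⧸ I k) * (v '' {f | f ∈ U ∧ f ≠ 0}).ncard ≤ Module.finrank K ↥(U * E))

/-! ## The output of the algebraic part -/

/-- The values of Laurent polynomials: what is used of the generic flag. -/
structure Sys {k : ℕ} (A B : Finset (Fin k → ℤ)) where
  D : ℕ
  N : ℕ
  N₀ : ℕ
  N₁ : ℕ
  h : ℕ → ℕ → ℕ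
  G : Finset (Fin k → ℤ) → Finset (Fin k → ℕ)
  D_pos : 1 ≤ D
  mono : ∀ S S', S ⊆ S' → G S ⊆ G S'
  le_card : ∀ S, S.card ≤ D * (G S).card
  add : ∀ S S' x y, x ∈ G S → y ∈ G S' → x + y ∈ G (S + S')
  unit : ∀ l : Fin k, Pi.single l 1 ∈ G A
  zero : (0 : Fin k → ℕ) ∈ G {0}
  card_le : ∀ p q, D * (G (SS A B p q)).card ≤ (SS A B (p + N₀) q).card
  face : ∀ j < k, ∀ q, h j q ≤
    D * ((G (SS A B N q)).filter (fun i => ∀ l : Fin k, l.val < j → i l = 0)).card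
  face' : ∀ j < k, ∀ q,
    ((G (SS A B N q)).filter (fun i => ∀ l : Fin k, l.val < j → i l = 0)).card ≤ h j q
  upper : ∀ n q, (SS A B (N + n) q).card ≤
    (∑ j ∈ Finset.range k, (n + j - 1).choose j * h j q) + (n + k - 1).choose k * D
  lower : ∀ j < k, ∀ n q, (n + j - 1).choose j * h j q ≤ (SS A B (N + n) q).card
  lowerD : ∀ n, (n + k - 1).choose k * D ≤ (SS A B (N₁ + n) 0).card

/-- (ALG) the algebraic part -/
def S_ALG : Prop := ∀ (k : ℕ) (A B : Finset (Fin k → ℤ)), 1 ≤ k → (0 : Fin k → ℤ) ∈ A →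
  (0 : Fin k → ℤ) ∈ B → (∀ z, ∃ n, z ∈ ns A n) → Nonempty (Sys A B)

/-- (DEG) the degree bound for the values -/
def S_DEG : Prop := ∀ (k : ℕ) (A B : Finset (Fin k → ℤ)), 1 ≤ k → (0 : Fin k → ℤ) ∈ A →
  (0 : Fin k → ℤ) ∈ B → ∀ s : Sys A B, ∀ p : ℕ, ∀ i ∈ s.G (SS A B p 0), ∑ l, i l ≤ p

/-! ## Convex bodies and lattice points -/

/-- a convex body with the origin in its interior (the same as `TH537.EQ.NB`) -/
structure NB {m : ℕ} (K : Set (Fin m → ℝ)) : Prop where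
  comp : IsCompact K
  conv : Convex ℝ K
  zero : (0 : Fin m → ℝ) ∈ interior K

open Classical in
/-- the lattice points of a bounded set -/
def lat {k : ℕ} (C : Set (Fin k → ℝ)) : Finset (Fin k → ℤ) :=
  if h : {z : Fin k → ℤ | (fun i => (z i : ℝ)) ∈ C}.Finite then h.toFinset else ∅

/-- (LAT1) sums of lattice points of `m A` and `m B` -/
def S_LAT1 : Prop := ∀ (k : ℕ) (A B : Set (Fin k → ℝ)), NB A → NB B → ∃ c : ℝ, 0 < c ∧
  ∀ m : ℝ, c ≤ m → ∀ p q : ℕ,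
    lat ((m - c) • ((p : ℝ) • A + (q : ℝ) • B)) ⊆ SS (lat (m • A)) (lat (m • B)) p q ∧
    SS (lat (m • A)) (lat (m • B)) p q ⊆ lat (m • ((p : ℝ) • A + (q : ℝ) • B)) ∧
    (0 : Fin k → ℤ) ∈ lat (m • A) ∧ (c < m → ∀ z, ∃ n, z ∈ ns (lat (m • A)) n)

/-- (LAT2) the number of lattice points of a large dilate -/
def S_LAT2 : Prop := ∀ (k : ℕ) (C : Set (Fin k → ℝ)), NB C →
  Tendsto (fun r : ℝ => ((lat (r • C)).card : ℝ) / r ^ k) atTop (𝓝 (volume.real C))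

/-! ## The real inequality (Lemma K) -/

/-- the set of the points `x` with `x_i = 0` for `i < j` and `g_i ≤ x_i < g_i + 1` for `i ≥ j`, `g ∈ G` -/
def fat {k : ℕ} (j : ℕ) (G : Finset (Fin k → ℕ)) : Set (Fin k → ℝ) :=
  {x | ∃ g ∈ G, ∀ i : Fin k, (i.val < j → x i = 0) ∧
    (j ≤ i.val → (g i : ℝ) ≤ x i ∧ x i < (g i : ℝ) + 1)}

/-- the Minkowski sum `r_0 X^ + ∑_(1 ≤ j < k) r_j G_j^` -/
def Zs {k : ℕ} (r : ℕ → ℝ) (X : Finset (Fin k → ℕ)) (G : ℕ → Finset (Fin k → ℕ)) :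
    Set (Fin k → ℝ) :=
  {x | ∃ x₀ ∈ fat 0 X, ∃ y : ℕ → (Fin k → ℝ), (∀ j ∈ Finset.Ico 1 k, y j ∈ fat j (G j)) ∧
    x = r 0 • x₀ + ∑ j ∈ Finset.Ico 1 k, r j • y j}

/-- (LK) Lemma K. `θ 0 > θ 1 > ... > θ (k - 1)`; `β_j = θ (j - 1) - θ j`, `1 ≤ j < k`; elements of
`G j` vanish in the coordinates `i < j`; `∑ x_i ≤ L` on `X`. -/
def S_LK : Prop := ∀ (k : ℕ) (θ : ℕ → ℝ), 1 ≤ k → (∀ i < k, 0 < θ i ∧ θ i < 1) →
  (∀ i, i + 1 < k → θ (i + 1) < θ i) →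
  ∀ (r : ℕ → ℝ) (X : Finset (Fin k → ℕ)) (G : ℕ → Finset (Fin k → ℕ)) (L : ℝ),
  (∀ j, 0 < r j) → 0 ≤ L → X.Nonempty → (∀ j, (G j).Nonempty) →
  (∀ x ∈ X, (∑ i, (x i : ℝ)) ≤ L) → (∀ j, ∀ g ∈ G j, ∀ i : Fin k, i.val < j → g i = 0) →
  r 0 ^ k * (X.card : ℝ) * ∏ j ∈ Finset.Ico 1 k,
      ((r j / (θ (j - 1) - θ j)) ^ (k - j) * ((G j).card : ℝ)) ^ (θ (j - 1) - θ j) ≤
    (volume.real (Zs r X G) / θ 0 ^ k) ^ (θ 0) *
      Real.exp (-∑ i ∈ Finset.range k, Real.binEntropy (θ i)) *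
      (Real.exp 1 * r 0 * (L + k) / ∑ i ∈ Finset.range k, (1 - θ i)) ^
        (∑ i ∈ Finset.range k, (1 - θ i))

/-- (STAR) upper bound for the volume of the Minkowski sum of sets of values -/
def S_STAR : Prop := ∀ (k : ℕ) (A B : Set (Fin k → ℝ)) (m : ℝ), 1 ≤ k → NB A → NB B → 0 < m →
  (0 : Fin k → ℤ) ∈ lat (m • A) → (0 : Fin k → ℤ) ∈ lat (m • B) →
  ∀ s : Sys (lat (m • A)) (lat (m • B)), ∀ (r : ℕ → ℝ) (q : ℕ → ℕ) (X : Finset (Fin k → ℕ))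
    (G : ℕ → Finset (Fin k → ℕ)), (∀ j, 0 < r j) → (∀ j, 1 ≤ q j) →
    X ⊆ s.G (SS (lat (m • A)) (lat (m • B)) 0 (q 0)) →
    (∀ j, G j ⊆ s.G (SS (lat (m • A)) (lat (m • B)) s.N (q j))) →
    volume.real (Zs r X G) ≤ m ^ k / s.D * volume.real
      ((s.N * ∑ j ∈ Finset.Ico 1 k, r j + k * ∑ j ∈ Finset.range k, r j) • A +
        (∑ j ∈ Finset.range k, r j * q j) • B)

/-- the conclusion of (T1): what the sets `lat (m A)`, `lat (m B)` give for the bodies `A`, `B` -/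
def EtaM (k : ℕ) (A B : Set (Fin k → ℝ)) (m c D : ℝ) (η : ℕ → ℝ) : Prop :=
  (∀ j < k, 0 < η j) ∧ η 0 ≤ k.factorial * (m ^ k * volume.real B) ∧ 1 ≤ D ∧
  D ≤ k.factorial * (m ^ k * volume.real A) ∧
  (∀ x : ℝ, 0 < x → (m - c) ^ k * volume.real (x • A + B) ≤
    ∑ j ∈ Finset.range k, x ^ j * η j / (j.factorial * (k - j).factorial) +
      x ^ k * D / k.factorial) ∧
  ∀ θ : ℕ → ℝ, (∀ i < k, 0 < θ i ∧ θ i < 1) → (∀ i, i + 1 < k → θ (i + 1) < θ i) →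
    ∀ μ : ℕ → ℝ, (∀ j, 0 < μ j) → ∀ n l : ℚ, 0 < n → 0 < l →
    ((m - c) ^ k * volume.real (((n : ℝ) • A) ∩ ((l : ℝ) • B)) / D) *
        ∏ j ∈ Finset.Ico 1 k, ((μ j / (θ (j - 1) - θ j)) ^ (k - j) *
          (η j / (D * (k - j).factorial))) ^ (θ (j - 1) - θ j) ≤
      (m ^ k / D * ((l + ∑ j ∈ Finset.Ico 1 k, μ j) ^ k * volume.real B) / θ 0 ^ k) ^ (θ 0) *
        Real.exp (-∑ i ∈ Finset.range k, Real.binEntropy (θ i)) *
        (Real.exp 1 * n / ∑ i ∈ Finset.range k, (1 - θ i)) ^ (∑ i ∈ Finset.range k, (1 - θ i))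

/-- (T1) limits of (LK) and (STAR) -/
def S_T1 : Prop := ∀ (k : ℕ) (A B : Set (Fin k → ℝ)), 1 ≤ k → NB A → NB B → ∃ c : ℝ, 0 < c ∧
  ∀ m : ℝ, c < m → ∃ (D : ℝ) (η : ℕ → ℝ), EtaM k A B m c D η

/-- (ETA) the main inequality for pairs of convex bodies -/
def S_ETA : Prop := ∃ C : ℝ, 0 < C ∧ ∀ (k : ℕ) (A B : Set (Fin k → ℝ)), 1 ≤ k → NB A → NB B →
  ∃ η : ℕ → ℝ, (∀ j, 0 < η j) ∧ η 0 ≤ 2 * (k.factorial * volume.real B) ∧
    η k ≤ 2 * (k.factorial * volume.real A) ∧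
    (∀ x : ℝ, 0 < x → volume.real (x • A + B) ≤
      ∑ j ∈ Finset.range (k + 1), x ^ j * η j / (j.factorial * (k - j).factorial)) ∧
    ∀ θ : ℕ → ℝ, (∀ i < k, 0 < θ i ∧ θ i < 1) → (∀ i, i + 1 < k → θ (i + 1) < θ i) →
      ∀ n l : ℚ, 0 < n → 0 < l →
      volume.real (((n : ℝ) • A) ∩ ((l : ℝ) • B)) *
          ∏ j ∈ Finset.Ico 1 k, η j ^ (θ (j - 1) - θ j) ≤
        C * k * (Real.exp 1 * n / ∑ i ∈ Finset.range k, (1 - θ i)) ^
            (∑ i ∈ Finset.range k, (1 - θ i)) *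
          (Real.exp 1 * l / ∑ i ∈ Finset.range k, θ i) ^ (∑ i ∈ Finset.range k, θ i) *
          Real.exp (-∑ i ∈ Finset.range k, Real.binEntropy (θ i)) *
          (k.factorial * volume.real B) ^ (θ 0) * (k.factorial * volume.real A) ^ (1 - θ (k - 1))

/-! ## The conclusion -/

/-- `conv((1-u) K ∪ -u K)` -/
def HU {m : ℕ} (K : Set (Fin m → ℝ)) (u : ℝ) : Set (Fin m → ℝ) :=
  convexHull ℝ ((1 - u) • K ∪ (-u) • K)

/-- `{x | ‖x‖_K + ‖-x‖_K ≤ 1}` -/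
def HH {m : ℕ} (K : Set (Fin m → ℝ)) : Set (Fin m → ℝ) := {x | gauge K x + gauge K (-x) ≤ 1}

/-- (HULL) the Rogers-Shephard bound for the convex hull -/
def S_HULL : Prop := ∀ (k : ℕ) (K : Set (Fin k → ℝ)), NB K → ∀ u : ℝ, 0 < u → u < 1 →
  ∃ t : ℝ, 0 < t ∧ t < 1 ∧
    volume.real (HU K u) ≤ 2 * (k + 1) * volume.real (((1 - t) * (1 - u)) • K + (t * u) • (-K))

/-- (HHS) slices of `HH K` -/
def S_HHS : Prop := ∀ (k : ℕ) (K : Set (Fin k → ℝ)), 1 ≤ k → NB K →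
  ∃ n l : ℚ, 0 < n ∧ 0 < l ∧ (n : ℝ) + l = 1 + 1 / k ∧
    volume.real (HH K) ≤ k * volume.real (((n : ℝ) • K) ∩ ((l : ℝ) • (-K)))

/-- (INB) two-valued form of the averaged inequality for bodies, constant `P k` -/
def S_INB (P : ℕ → ℝ) : Prop := ∀ (k : ℕ) (K : Set (Fin k → ℝ)), NB K → ∀ (a b t : ℝ), 0 < t →
  t < 1 → 0 < a → a ≤ b → (∀ u : ℝ, 0 < u → u < 1 → a ≤ volume.real (HU K u)) →
  (∀ u : ℝ, 0 < u → u < t → b ≤ volume.real (HU K u)) →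
  volume.real (HH K) * (a ^ (1 - t) * b ^ t) ≤ P k * Real.exp (-k) * volume.real K ^ 2

/-- (FINAL) the averaged inequality with a polynomial factor -/
def S_FINAL : Prop := ∃ C : ℝ, S_INB (fun k => C * ((k : ℝ) + 1) ^ 4)

end Pool.Agent.Helper90.MH
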